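import Pool.Agent.Lib.MP_68925f_co.P.Multi

/-! Affine polynomials: regular cases, and the jump argument for bases with an odd prime. -/

namespace Pool.Agent.Lib.MP_68925f_co

theorem reg_of_finite {r k : ℕ} {t : (Fin r → ℕ) → ℤ} {ι : Type} [Finite ι]
    (G : ι → (Fin r → ℕ) → ℤ)
    (h : ∀ (e : ℕ) (ρ : Fin r → ℕ), (∀ i, ρ i < k ^ e) →
      (fun n : Fin r → ℕ => t (fun i => k ^ e * n i + ρ i)) ∈ Submodule.span ℤ (Set.range G)) :
    IsKRegular k t := by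
  refine Submodule.FG.of_le (Submodule.fg_span (Set.finite_range G)) (Submodule.span_le.2 ?_)
  rintro _ ⟨e, ρ, hρ, rfl⟩
  exact h e ρ hρ

theorem reg_const {r k : ℕ} (c : ℤ) : IsKRegular k (fun _ : Fin r → ℕ => c) :=
  reg_of_finite (fun _ : Unit => fun _ => c) (fun _ _ _ => Submodule.subset_span ⟨(), rfl⟩)

theorem reg_shift {r k : ℕ} (c : ℕ) (i : Fin r) :
    IsKRegular k (fun n : Fin r → ℕ => ((c ^^^ n i : ℕ) : ℤ)) := by
  have hp : 0 < 2 ^ c := by positivity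
  have key : ∀ x : ℕ, ((c ^^^ x : ℕ) : ℤ) = x + (((c ^^^ x % 2 ^ c : ℕ) : ℤ) - (x % 2 ^ c : ℕ)) := by
    intro x
    have h1 : c ^^^ x = 2 ^ c * (x / 2 ^ c) + (c ^^^ x % 2 ^ c) := by
      rw [← pow_mul_xor (Nat.xor_lt_two_pow Nat.lt_two_pow_self (Nat.mod_lt _ hp)),
        Nat.xor_comm c (x % 2 ^ c), ← Nat.xor_assoc, ← split_xor, Nat.xor_comm]
    have h2 := Nat.div_add_mod x (2 ^ c)
    omega
  refine reg_of_finite (ι := Bool ⊕ (Fin (2 ^ c) × Fin (2 ^ c)))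
    (Sum.elim (fun b n => if b then (n i : ℤ) else 1)
      (fun q n => ((c ^^^ (q.1 * n i + q.2) % 2 ^ c : ℕ) : ℤ) - ((q.1 * n i + q.2) % 2 ^ c : ℕ)))
    (fun e ρ _ => ?_)
  have hm := Submodule.add_mem _ (Submodule.add_mem _
    (Submodule.smul_mem _ ((k : ℤ) ^ e) (Submodule.subset_span (R := ℤ)
      (Set.mem_range_self (f := Sum.elim (fun (b : Bool) (n : Fin r → ℕ) => if b then (n i : ℤ) else 1)
        (fun (q : Fin (2 ^ c) × Fin (2 ^ c)) n =>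
          ((c ^^^ (q.1 * n i + q.2) % 2 ^ c : ℕ) : ℤ) - ((q.1 * n i + q.2) % 2 ^ c : ℕ)))
        (Sum.inl true))))
    (Submodule.smul_mem _ (ρ i : ℤ) (Submodule.subset_span (Set.mem_range_self (Sum.inl false)))))
    (Submodule.subset_span (Set.mem_range_self
      (Sum.inr (⟨k ^ e % 2 ^ c, Nat.mod_lt _ hp⟩, ⟨ρ i % 2 ^ c, Nat.mod_lt _ hp⟩))))
  refine Eq.mp (congrArg (· ∈ _) (funext fun n => ?_)) hm
  have e1 : (k ^ e % 2 ^ c * n i + ρ i % 2 ^ c) % 2 ^ c = (k ^ e * n i + ρ i) % 2 ^ c :=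
    ((Nat.mod_modEq _ _).mul_right _).add (Nat.mod_modEq _ _)
  rw [key (k ^ e * n i + ρ i)]
  simp only [Pi.add_apply, Pi.smul_apply, Sum.elim_inl, Sum.elim_inr, smul_eq_mul, e1]
  simp

theorem rel_of_reg {r k : ℕ} (hk : 2 ≤ k) {t : (Fin r → ℕ) → ℤ} (h : IsKRegular k t) :
    ∃ (S : Finset ℕ) (z : ℕ → ℤ), (∃ e ∈ S, z e ≠ 0) ∧
      ∀ n : Fin r → ℕ, ∑ e ∈ S, z e * t (fun i => k ^ e * n i) = 0 := by
  have : Module.Finite ℤ (Submodule.span ℤ (kKernel k t)) := Module.Finite.iff_fg.2 h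
  obtain ⟨S, z, h1, h2⟩ := not_linearIndependent_iff.1
    (Module.Finite.not_linearIndependent_of_infinite (R := ℤ)
      (fun e : ℕ => (⟨fun n => t (fun i => k ^ e * n i + 0), Submodule.subset_span
        ⟨e, fun _ => 0, fun _ => by positivity, rfl⟩⟩ : Submodule.span ℤ (kKernel k t))))
  refine ⟨S, z, h2, fun n => ?_⟩
  have h3 := congrFun (congrArg Subtype.val h1) n
  simpa [Finset.sum_apply] using h3

theorem jump {k p b : ℕ} (hk : 2 ≤ k) (hp : p.Prime) (hpk : p ∣ k) (hodd : Odd p) (hb : 1 ≤ b)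
    (D : ℕ → ℕ → ℤ)
    (h1 : ∀ i u v, 1 ≤ i → u / 2 ^ (b * i) = v / 2 ^ (b * i) → |D u v| ≤ 2 ^ (b * i))
    (h2 : ∀ M u v, 1 ≤ M → v < 2 ^ (b * M) → 2 ^ (b * M) ≤ u → u < 2 ^ (b * M + 1) →
      2 ^ (b * M) - 2 ^ b ≤ |D u v|)
    (S : Finset ℕ) (z : ℕ → ℤ) (hz : ∃ e ∈ S, z e ≠ 0)
    (hrel : ∀ n, ∑ e ∈ S, z e * D (k ^ e * (n + 1)) (k ^ e * n) = 0) : False := by
  classical
  obtain ⟨N, hN, hmax⟩ := Finset.exists_max_image (S.filter (fun e => z e ≠ 0)) id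
    (by obtain ⟨e, he, hz⟩ := hz; exact ⟨e, Finset.mem_filter.2 ⟨he, hz⟩⟩)
  obtain ⟨hNS, hzN⟩ := Finset.mem_filter.1 hN
  obtain ⟨A, hA⟩ : ∃ A, A = k ^ N := ⟨_, rfl⟩
  have hA1 : 1 ≤ A := by rw [hA]; exact Nat.one_le_pow _ _ (by omega)
  have hpow : ∀ M, M < 2 ^ (b * M) := fun M => lt_of_lt_of_le Nat.lt_two_pow_self
    (Nat.pow_le_pow_right (by norm_num) (Nat.le_mul_of_pos_left _ hb))
  obtain ⟨C, hC⟩ : ∃ C : ℕ, C = ∑ e ∈ S.erase N, (z e).natAbs * 2 ^ (b * A) := ⟨_, rfl⟩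
  obtain ⟨w, hw⟩ : ∃ w, w = C + 2 ^ b := ⟨_, rfl⟩
  obtain ⟨n, hn⟩ : ∃ n, n = (2 ^ (b * (A + w)) - 1) / A := ⟨_, rfl⟩
  have hM := hpow (A + w)
  have hn1 : A * n < 2 ^ (b * (A + w)) := by
    have := Nat.mul_div_le (2 ^ (b * (A + w)) - 1) A
    rw [← hn] at this
    omega
  have hn2 : 2 ^ (b * (A + w)) ≤ A * n + A := by
    have := Nat.lt_mul_div_succ (2 ^ (b * (A + w)) - 1) hA1
    rw [← hn, mul_add A n, mul_one] at this
    omega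
  have hbig := h2 (A + w) (k ^ N * (n + 1)) (k ^ N * n) (by omega) (hA ▸ hn1)
    (by rw [← hA, mul_add A n, mul_one]; exact hn2)
    (by rw [← hA, mul_add A n, mul_one, pow_succ]; omega)
  have hsm : ∀ e ∈ S.erase N, |z e * D (k ^ e * (n + 1)) (k ^ e * n)| ≤
      (((z e).natAbs * 2 ^ (b * A) : ℕ) : ℤ) := by
    intro e he
    obtain ⟨hne, heS⟩ := Finset.mem_erase.1 he
    by_cases hze : z e = 0
    · simp [hze]
    have hlt : e < N := lt_of_le_of_ne (hmax e (Finset.mem_filter.2 ⟨heS, hze⟩)) hne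
    rw [abs_mul, Nat.cast_mul, Int.natCast_natAbs, Nat.cast_pow, Nat.cast_ofNat]
    refine mul_le_mul_of_nonneg_left (h1 A _ _ hA1 ?_) (abs_nonneg _)
    by_contra hq
    obtain ⟨G, hG⟩ : ∃ G, G = 2 ^ (b * A) := ⟨_, rfl⟩
    have hGA : A < G := hG ▸ hpow A
    rw [← hG] at hq
    obtain ⟨q, hqd⟩ : ∃ q, q = k ^ e * (n + 1) / G := ⟨_, rfl⟩
    have q1 : G * q ≤ k ^ e * (n + 1) := hqd ▸ Nat.mul_div_le _ _
    have q2 : k ^ e * n < G * q := by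
      have : k ^ e * n / G ≤ k ^ e * (n + 1) / G :=
        Nat.div_le_div_right (Nat.mul_le_mul_left _ (Nat.le_succ n))
      rw [mul_comm G q]
      exact (Nat.div_lt_iff_lt_mul (by omega)).1 (by omega)
    obtain ⟨κ, hκ⟩ : ∃ κ, κ = k ^ (N - e) := ⟨_, rfl⟩
    have hAκ : A = κ * k ^ e := by rw [hA, hκ, ← pow_add, Nat.sub_add_cancel hlt.le]
    have hκ0 : 0 < κ := by rw [hκ]; positivity
    have q3 : G * (κ * q) ≤ A * n + A := by
      calc G * (κ * q) = κ * (G * q) := by ring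
        _ ≤ κ * (k ^ e * (n + 1)) := Nat.mul_le_mul_left _ q1
        _ = A * n + A := by rw [hAκ]; ring
    have q4 : A * n < G * (κ * q) := by
      calc A * n = κ * (k ^ e * n) := by rw [hAκ]; ring
        _ < κ * (G * q) := Nat.mul_lt_mul_of_pos_left q2 hκ0
        _ = G * (κ * q) := by ring
    have e2 : 2 ^ (b * (A + w)) = G * 2 ^ (b * w) := by rw [hG, mul_add, pow_add]
    rw [e2] at hn1 hn2
    have e3 : κ * q = 2 ^ (b * w) := by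
      have a1 : κ * q < 2 ^ (b * w) + 1 :=
        Nat.lt_of_mul_lt_mul_left (a := G) (by rw [mul_add, mul_one]; omega)
      have a2 : 2 ^ (b * w) < κ * q + 1 :=
        Nat.lt_of_mul_lt_mul_left (a := G) (by rw [mul_add, mul_one]; omega)
      omega
    have hd : p ∣ 2 ^ (b * w) := by
      rw [← e3, hκ]
      exact (dvd_pow hpk (by omega)).mul_right _
    have h22 := (Nat.prime_dvd_prime_iff_eq hp Nat.prime_two).1 (hp.dvd_of_dvd_pow hd)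
    rw [h22] at hodd
    exact absurd hodd (by decide)
  have h3 := hrel n
  rw [← Finset.add_sum_erase S _ hNS] at h3
  have h4 : |z N * D (k ^ N * (n + 1)) (k ^ N * n)| ≤ C := by
    rw [eq_neg_of_add_eq_zero_left h3, abs_neg, hC, Nat.cast_sum]
    exact (Finset.abs_sum_le_sum_abs _ _).trans (Finset.sum_le_sum hsm)
  have h5 : |D (k ^ N * (n + 1)) (k ^ N * n)| ≤ |z N * D (k ^ N * (n + 1)) (k ^ N * n)| := by
    rw [abs_mul]
    exact le_mul_of_one_le_left (abs_nonneg _) (Int.one_le_abs hzN)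
  have h6 : ((C + 2 ^ b : ℕ) : ℤ) < ((2 ^ (b * (A + w)) : ℕ) : ℤ) := by
    rw [← hw]; exact_mod_cast (by omega : w < 2 ^ (b * (A + w)))
  push_cast at h6
  linarith

theorem abs_le_of_div {N x y : ℕ} (hN : 0 < N) (h : x / N = y / N) : |(x : ℤ) - y| ≤ N := by
  have h1 := Nat.div_add_mod x N
  have h2 := Nat.div_add_mod y N
  have h3 := Nat.mod_lt x hN
  have h4 := Nat.mod_lt y hN
  rw [h] at h1
  rw [abs_le]
  omega

namespace Nm

/-- shift of the binary digits -/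
def sh (m : ℕ) : Nm →+ Nm where
  toFun x := ⟨2 ^ m * x.v⟩
  map_zero' := Nm.ext (mul_zero _)
  map_add' _ _ := Nm.ext (pow_mul_xor_dist _ _ _)

theorem mk_split (m x : ℕ) : Nm.mk x = sh m ⟨x / 2 ^ m⟩ + ⟨x % 2 ^ m⟩ := Nm.ext (split_xor m x)

theorem reg_two_pow {r s : ℕ} (c : ℕ) (a : Fin r → Nm) :
    IsKRegular (2 ^ s) (fun n : Fin r → ℕ => ((Nm.mk c + ∑ i, a i * ⟨n i⟩).v : ℤ)) := by
  obtain ⟨j, hj⟩ : ∃ j, ∀ i, a i ∈ K j :=
    ⟨Finset.univ.sup (fun i => (a i).v), fun i =>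
      K_mono (Finset.le_sup (f := fun i => (a i).v) (Finset.mem_univ i)) (self_mem _)⟩
  have hb : 0 < 2 ^ j := by positivity
  refine reg_of_finite (ι := Option (Fin (c + 1) × Fin (2 ^ j) × (Fin r → Fin (2 ^ 2 ^ j))))
    (fun o n => o.elim 1 (fun q =>
      ((Nm.mk q.1 + ∑ i, a i * ⟨2 ^ (q.2.1 : ℕ) * n i + q.2.2 i⟩).v : ℤ))) (fun e ρ hρ => ?_)
  obtain ⟨t, ht⟩ : ∃ t, t = s * e / 2 ^ j := ⟨_, rfl⟩
  obtain ⟨β, hβ⟩ : ∃ β, β = s * e % 2 ^ j := ⟨_, rfl⟩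
  have hβ1 : β < 2 ^ j := hβ ▸ Nat.mod_lt _ hb
  have he : (2 ^ s) ^ e = 2 ^ (2 ^ j * t) * 2 ^ β := by
    rw [← pow_mul, ← pow_add, ht, hβ, Nat.div_add_mod]
  have hp : 0 < 2 ^ (2 ^ j * t) := by positivity
  have hρ1 : ∀ i, ρ i / 2 ^ (2 ^ j * t) < 2 ^ 2 ^ j := fun i =>
    (Nat.div_lt_of_lt_mul (he ▸ hρ i)).trans (Nat.pow_lt_pow_right (by norm_num) hβ1)
  obtain ⟨w, hw⟩ : ∃ w : Nm,
    w = Nm.mk (c % 2 ^ (2 ^ j * t)) + ∑ i, a i * ⟨ρ i % 2 ^ (2 ^ j * t)⟩ := ⟨_, rfl⟩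
  have hw1 : w.v < 2 ^ (2 ^ j * t) := by
    rw [hw]
    refine Nat.xor_lt_two_pow (Nat.mod_lt _ hp) ?_
    exact Finset.sum_induction _ (fun x : Nm => x.v < 2 ^ (2 ^ j * t))
      (fun _ _ => Nat.xor_lt_two_pow) hp (fun i _ => blk_lt (hj i) t _ (Nat.mod_lt _ hp))
  refine Eq.mp (congrArg (· ∈ _) (funext fun n => ?_)) (Submodule.add_mem _
    (Submodule.smul_mem _ ((2 : ℤ) ^ (2 ^ j * t)) (Submodule.subset_span (Set.mem_range_self
      (some (⟨c / 2 ^ (2 ^ j * t), Nat.lt_succ_of_le (Nat.div_le_self _ _)⟩, ⟨β, hβ1⟩,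
        fun i => ⟨_, hρ1 i⟩)))))
    (Submodule.smul_mem _ (w.v : ℤ) (Submodule.subset_span (Set.mem_range_self none))))
  have e1 : ∀ i, a i * Nm.mk ((2 ^ s) ^ e * n i + ρ i) =
      sh (2 ^ j * t) (a i * ⟨2 ^ β * n i + ρ i / 2 ^ (2 ^ j * t)⟩) +
        a i * ⟨ρ i % 2 ^ (2 ^ j * t)⟩ := by
    intro i
    rw [mk_split (2 ^ j * t) ((2 ^ s) ^ e * n i + ρ i), he, mul_assoc, Nat.mul_add_div hp,
      Nat.mul_add_mod, mul_add]
    congr 1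
    exact Nm.ext (blk (hj i) _ t)
  have e2 : Nm.mk c + ∑ i, a i * Nm.mk ((2 ^ s) ^ e * n i + ρ i) =
      sh (2 ^ j * t) (Nm.mk (c / 2 ^ (2 ^ j * t)) +
        ∑ i, a i * ⟨2 ^ β * n i + ρ i / 2 ^ (2 ^ j * t)⟩) + w := by
    rw [map_add, map_sum, hw, add_add_add_comm, ← mk_split, ← Finset.sum_add_distrib]
    simp only [e1]
  simp only [Pi.add_apply, Pi.smul_apply, smul_eq_mul, Option.elim_some, Option.elim_none, mul_one]
  rw [e2, add_v]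
  show _ = ((2 ^ (2 ^ j * t) * _ ^^^ w.v : ℕ) : ℤ)
  rw [pow_mul_xor hw1]
  push_cast
  rfl

end Nm

end Pool.Agent.Lib.MP_68925f_co
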