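import Pool.Agent.Lib.MP_68925f_co.P.Pow

/-! One variable: a polynomial with an automatic lowest block has degree at most one. -/

namespace Pool.Agent.Lib.MP_68925f_co

theorem xor_lt_of_top {T x y : ℕ} (hx : 2 ^ T ≤ x) (hx' : x < 2 ^ (T + 1)) (hy : 2 ^ T ≤ y)
    (hy' : y < 2 ^ (T + 1)) : x ^^^ y < 2 ^ T := by
  have hp : 0 < 2 ^ T := by positivity
  have h : ∀ z, 2 ^ T ≤ z → z < 2 ^ (T + 1) → z / 2 ^ T = 1 := fun z h1 h2 =>
    Nat.div_eq_of_lt_le (by omega) (by rw [pow_succ] at h2; omega)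
  rw [← Nat.div_eq_zero_iff_lt hp, Nat.xor_div_two_pow, h x hx hx', h y hy hy', Nat.xor_self]

theorem two_pow_period (p : ℕ) (hp : 0 < p) :
    ∃ j0 o, ∀ j, j0 ≤ j → 2 ^ j ≡ 2 ^ (j + (o + 1)) [MOD p] := by
  have key : ∀ a b, a < b → 2 ^ a % p = 2 ^ b % p →
      ∃ j0 o, ∀ j, j0 ≤ j → 2 ^ j ≡ 2 ^ (j + (o + 1)) [MOD p] := by
    intro a b hab h
    refine ⟨a, b - a - 1, fun j hj => ?_⟩
    have h2 := Nat.ModEq.mul_right (2 ^ (j - a)) (show 2 ^ a ≡ 2 ^ b [MOD p] from h)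
    rwa [← pow_add, ← pow_add, (by omega : a + (j - a) = j),
      (by omega : b + (j - a) = j + (b - a - 1 + 1))] at h2
  obtain ⟨a, b, hab, h⟩ := Finite.exists_ne_map_eq_of_infinite
    (fun j : ℕ => (⟨2 ^ j % p, Nat.mod_lt _ hp⟩ : Fin p))
  have h' : 2 ^ a % p = 2 ^ b % p := congrArg Fin.val h
  rcases lt_or_gt_of_ne hab with hlt | hlt
  · exact key a b hlt h'
  · exact key b a hlt h'.symm

namespace Nm

open Polynomial

theorem shift_period (N : ℕ) (L : ℕ → Nm) (hN : ∀ x, (L x).v < N)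
    (hL : ∀ x y, L (x ^^^ y) = L x + L y) (C m0 : ℕ) (hC : C ≠ 0)
    (h0 : ∀ m, m0 ≤ m → L (2 ^ m * C) = 0) :
    ∃ m1 p, 0 < p ∧ ∀ u v x, m1 ≤ u → u ≤ v → u ≡ v [MOD p] → L (2 ^ u * x) = L (2 ^ v * x) := by
  obtain ⟨D, hD1, hD2⟩ : ∃ D, 2 ^ D ≤ C ∧ C < 2 ^ (D + 1) :=
    ⟨Nat.log 2 C, Nat.pow_log_le_self 2 hC, Nat.lt_pow_succ_log_self (by norm_num) C⟩
  have key : ∀ a b, m0 ≤ a → a < b → (∀ x < 2 ^ D, L (2 ^ a * x) = L (2 ^ b * x)) →
      ∃ m1 p, 0 < p ∧
        ∀ u v x, m1 ≤ u → u ≤ v → u ≡ v [MOD p] → L (2 ^ u * x) = L (2 ^ v * x) := by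
    intro a b ha hab h
    have h1 : ∀ x, L (2 ^ a * x) = L (2 ^ b * x) := by
      intro x
      induction x using Nat.strong_induction_on with
      | _ x ih =>
        by_cases hx : x < 2 ^ D
        · exact h x hx
        have hx0 : x ≠ 0 := by
          have : 0 < 2 ^ D := by positivity
          omega
        obtain ⟨T, hT1, hT2⟩ : ∃ T, 2 ^ T ≤ x ∧ x < 2 ^ (T + 1) :=
          ⟨Nat.log 2 x, Nat.pow_log_le_self 2 hx0, Nat.lt_pow_succ_log_self (by norm_num) x⟩
        have hDT : D < T + 1 :=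
          (Nat.pow_lt_pow_iff_right (by norm_num : 1 < 2)).1 (lt_of_le_of_lt (not_lt.1 hx) hT2)
        obtain ⟨c, rfl⟩ : ∃ c, T = c + D := ⟨T - D, by omega⟩
        have hlt : x ^^^ 2 ^ c * C < 2 ^ (c + D) := by
          refine xor_lt_of_top hT1 hT2 ?_ ?_
          · rw [pow_add]; exact Nat.mul_le_mul_left _ hD1
          · rw [add_assoc, pow_add]; exact Nat.mul_lt_mul_of_pos_left hD2 (by positivity)
        have e : ∀ m, m0 ≤ m → L (2 ^ m * x) = L (2 ^ m * (x ^^^ 2 ^ c * C)) := by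
          intro m hm
          rw [pow_mul_xor_dist, hL, ← mul_assoc, ← pow_add, h0 _ (by omega), add_zero]
        rw [e a ha, e b (by omega)]
        exact ih _ (lt_of_lt_of_le hlt hT1)
    have h2 : ∀ i x, L (2 ^ a * x) = L (2 ^ (a + (b - a) * i) * x) := by
      intro i
      induction i with
      | zero => intro x; rw [mul_zero, add_zero]
      | succ i ih =>
        intro x
        rw [ih x, pow_add, mul_assoc, h1, ← mul_assoc, ← pow_add, mul_add, mul_one]
        congr 3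
        omega
    refine ⟨a, b - a, by omega, fun u v x hu huv hm => ?_⟩
    obtain ⟨i, hi⟩ := (Nat.modEq_iff_dvd' huv).1 hm
    have h3 := h2 i (2 ^ (u - a) * x)
    rwa [← mul_assoc, ← mul_assoc, ← pow_add, ← pow_add, (by omega : a + (u - a) = u),
      (by omega : a + (b - a) * i + (u - a) = v)] at h3
  obtain ⟨a, b, hab, h⟩ := Finite.exists_ne_map_eq_of_infinite
    (fun m : ℕ => fun x : Fin (2 ^ D) => (⟨(L (2 ^ (m0 + m) * x)).v, hN _⟩ : Fin N))
  have h' : ∀ x < 2 ^ D, L (2 ^ (m0 + a) * x) = L (2 ^ (m0 + b) * x) := fun x hx =>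
    Nm.ext (congrArg Fin.val (congrFun h ⟨x, hx⟩))
  rcases lt_or_gt_of_ne hab with hlt | hlt
  · exact key _ _ (Nat.le_add_right _ _) (by omega) h'
  · exact key _ _ (Nat.le_add_right _ _) (by omega) (fun x hx => (h' x hx).symm)

/-- the consequence of regularity that is used -/
def Good (k s : ℕ) (f : Nm → Nm) : Prop :=
  ∀ R : Finset Nm, ∃ e e' m0 : ℕ, e < e' ∧ ∀ ρ ∈ R, ∀ n : ℕ,
    lam s (f (⟨k ^ e * (2 ^ m0 * n)⟩ + ρ)) = lam s (f (⟨k ^ e' * (2 ^ m0 * n)⟩ + ρ))

theorem Good.diff {k s : ℕ} {f : Nm → Nm} (h : Good k s f) (τ : Nm) :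
    Good k s (fun y => f (y + τ) - f y) := by
  classical
  intro R
  obtain ⟨e, e', m0, he, H⟩ := h (R ∪ R.image (· + τ))
  refine ⟨e, e', m0, he, fun ρ hρ n => ?_⟩
  simp only [map_sub, add_assoc]
  rw [H ρ (Finset.mem_union_left _ hρ),
    H (ρ + τ) (Finset.mem_union_right _ (Finset.mem_image_of_mem _ hρ))]

theorem coeff_level (Q : Nm[X]) : ∃ J, ∀ i, Q.coeff i ∈ K J := by
  refine ⟨Q.support.sup (fun i => (Q.coeff i).v), fun i => ?_⟩
  by_cases hi : i ∈ Q.support
  · exact K_mono (Finset.le_sup (f := fun i => (Q.coeff i).v) hi) (self_mem _)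
  · rw [notMem_support_iff.1 hi]; exact zero_mem _

theorem additive_case {k s : ℕ} (hk : 2 ≤ k) (Q : Nm[X]) (hd : Q.natDegree < 2 ^ 2 ^ s)
    (hG : Good k s (fun y => Q.eval y))
    (hadd : ∀ x y, Q.eval (x + y) - Q.eval 0 = (Q.eval x - Q.eval 0) + (Q.eval y - Q.eval 0)) :
    Q.natDegree ≤ 1 := by
  by_contra hdeg
  obtain ⟨m, hm⟩ : ∃ m, Q.natDegree = m + 2 := ⟨Q.natDegree - 2, by omega⟩
  obtain ⟨e, e', m0, he, H⟩ := hG {0}
  obtain ⟨L, hLd⟩ : ∃ L : ℕ → Nm, ∀ x, L x = lam s (Q.eval ⟨x⟩ - Q.eval 0) := ⟨_, fun _ => rfl⟩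
  have hL : ∀ x y, L (x ^^^ y) = L x + L y := by
    intro x y
    rw [hLd, hLd, hLd, ← map_add, ← hadd]
    rfl
  have hC : k ^ e ^^^ k ^ e' ≠ 0 := fun h =>
    absurd (xor_eq_zero' h) (Nat.pow_lt_pow_right hk he).ne
  obtain ⟨m1, p, hp, hper⟩ := shift_period (2 ^ 2 ^ s) L (fun x => by rw [hLd]; exact lam_mem s _)
    hL _ m0 hC (fun u hu => by
      have h1 := H 0 (Finset.mem_singleton_self 0) (2 ^ (u - m0))
      rw [← pow_add, (by omega : m0 + (u - m0) = u), add_zero, add_zero] at h1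
      rw [pow_mul_xor_dist, hL, hLd, hLd, map_sub, map_sub, mul_comm _ (k ^ e), mul_comm _ (k ^ e'),
        h1, add_self])
  obtain ⟨j0, o, hj0⟩ := two_pow_period p hp
  obtain ⟨J, hJ⟩ := coeff_level Q
  obtain ⟨j, hj, hne⟩ := delta_ne m o (j0 + m1 + s + J)
  have hQ : ∀ i, Q.coeff i ∈ K j := fun i => K_mono (by omega) (hJ i)
  have hev : ∀ y, ∀ x ∈ K j, lam j (Q.eval (y * x)) =
      ∑ i ∈ Finset.range (m + 2 + 1), Q.coeff i * lam j (y ^ i) * x ^ i := by
    intro y x hx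
    rw [eval_eq_sum_range, hm, map_sum]
    refine Finset.sum_congr rfl (fun i _ => ?_)
    rw [lam_mul (hQ i), mul_pow, mul_comm (y ^ i), lam_mul (pow_mem hx i)]
    ring
  obtain ⟨A, hA⟩ : ∃ A : Nm[X], A = ∑ i ∈ Finset.range (m + 2 + 1),
    monomial i (Q.coeff i * (lam j (F j ^ i) - lam j (F (j + (o + 1)) ^ i))) := ⟨_, rfl⟩
  have hAe : ∀ x ∈ K j,
      A.eval x = lam j (Q.eval (F j * x)) - lam j (Q.eval (F (j + (o + 1)) * x)) := by
    intro x hx
    rw [hev _ x hx, hev _ x hx, hA, eval_finsetSum, ← Finset.sum_sub_distrib]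
    refine Finset.sum_congr rfl (fun i _ => ?_)
    rw [eval_monomial]
    ring
  have hAd : A.natDegree ≤ m + 2 := by
    rw [hA]
    exact natDegree_sum_le_of_forall_le _ _ (fun i hi =>
      (natDegree_monomial_le _).trans (Nat.lt_succ_iff.1 (Finset.mem_range.1 hi)))
  have hA0 : A.natDegree = 0 := by
    refine const_of_lam (s := s) (j := j) (by omega) A (by omega) (fun x hx => ?_)
    rw [hAe x hx]
    refine ⟨sub_mem (lam_mem _ _) (lam_mem _ _), ?_⟩
    have hjj : j < 2 ^ j := Nat.lt_two_pow_self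
    have h1 := hper (2 ^ j) (2 ^ (j + (o + 1))) x.v (by omega)
      (Nat.pow_le_pow_right (by norm_num) (by omega)) (hj0 j (by omega))
    rw [hLd, hLd, map_sub, map_sub, sub_left_inj] at h1
    rw [map_sub, lam_lam (by omega), lam_lam (by omega), F_mul hx,
      F_mul (K_mono (Nat.le_add_right _ _) hx), h1, sub_self]
  have h2 : A.coeff (m + 2) = 0 := coeff_eq_zero_of_natDegree_lt (by omega)
  rw [hA, finsetSum_coeff, Finset.sum_eq_single (m + 2), coeff_monomial, if_pos rfl] at h2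
  · rcases mul_eq_zero.1 h2 with h3 | h3
    · rw [← hm, coeff_natDegree, leadingCoeff_eq_zero] at h3
      rw [h3, natDegree_zero] at hm
      omega
    · exact hne (sub_eq_zero.1 h3)
  · intro i _ hi
    rw [coeff_monomial, if_neg hi]
  · intro h
    exact absurd (Finset.self_mem_range_succ _) h

theorem core {k s : ℕ} (hk : 2 ≤ k) (Q : Nm[X]) (hd : Q.natDegree < 2 ^ 2 ^ s)
    (hG : Good k s (fun y => Q.eval y)) : Q.natDegree ≤ 1 := by
  induction h : Q.natDegree using Nat.strong_induction_on generalizing Q with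
  | _ d ih =>
    by_cases hd1 : d ≤ 1
    · exact hd1
    rw [← h]
    have hQ0 : Q ≠ 0 := by
      intro h0
      rw [h0, natDegree_zero] at h
      omega
    have hdiff : ∀ τ, ∃ u, ∀ y, Q.eval (y + τ) - Q.eval y = u * y + (Q.eval τ - Q.eval 0) := by
      intro τ
      have hlt : (taylor τ Q - Q).natDegree < d := by
        by_cases h0 : taylor τ Q - Q = 0
        · rw [h0, natDegree_zero]; omega
        · rw [← h, ← natDegree_taylor Q τ]
          refine natDegree_lt_natDegree h0 (degree_sub_lt_left (degree_taylor Q τ) ?_ ?_)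
          · rwa [Ne, taylor_eq_zero]
          · exact leadingCoeff_taylor τ Q
      have hev : ∀ y, (taylor τ Q - Q).eval y = Q.eval (y + τ) - Q.eval y := fun y => by
        rw [eval_sub, taylor_eval]
      have h1 := ih _ hlt (taylor τ Q - Q) (by omega)
        (by simp only [hev]; exact hG.diff τ) rfl
      have h2 := eq_X_add_C_of_natDegree_le_one h1
      refine ⟨(taylor τ Q - Q).coeff 1, fun y => ?_⟩
      have h3 := hev 0
      rw [zero_add, ← coeff_zero_eq_eval_zero] at h3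
      rw [← hev, ← h3]
      conv_lhs => rw [h2]
      simp
    choose u hu using hdiff
    have h1 : ∀ τ, u τ = u 1 * τ := by
      intro τ
      have a1 := hu τ 1
      have a2 := hu 1 τ
      rw [add_comm τ 1] at a2
      linear_combination a2 - a1
    have h2 : u 1 = 0 := by
      have a1 := hu 1 1
      rw [add_self] at a1
      have a2 := add_self (Q.eval 1)
      have a3 := add_self (Q.eval 0)
      linear_combination -a1 - a2 + a3
    refine additive_case hk Q hd hG (fun x y => ?_)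
    have a1 := hu y x
    rw [h1 y, h2] at a1
    linear_combination a1

end Nm

end Pool.Agent.Lib.MP_68925f_co
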