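import Pool.Agent.Lib.MP_68925f_co.Defs

/-! Polynomials in several variables over the nim field, and `k`-regular arrays. -/

namespace Pool.Agent.Lib.MP_68925f_co

/-- The nim power `x ⊗ ⋯ ⊗ x` with `e` factors. -/
noncomputable def nimPow (x : ℕ) : ℕ → ℕ
  | 0 => 1
  | e + 1 => nimMul (nimPow x e) x

/-- The nim product over `i` of the nim powers of `n i` with exponent `d i`. -/
noncomputable def nimMono {r : ℕ} (d n : Fin r → ℕ) : ℕ :=
  (List.ofFn fun i => nimPow (n i) (d i)).foldr nimMul 1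

/-- The value at `n` of the polynomial whose coefficient at the exponent vector `d` is `P d`:
the nim sum over `d` of `P d ⊗ nimMono d n`. -/
noncomputable def nimEval {r : ℕ} (P : (Fin r → ℕ) →₀ ℕ) (n : Fin r → ℕ) : ℕ :=
  P.support.fold (fun a b => a ^^^ b) 0 (fun d => nimMul (P d) (nimMono d n))

/-- The `k`-kernel of an `r`-dimensional integer array: all subarrays `n ↦ t (k ^ e * n + ρ)` with
`ρ i < k ^ e` for all `i`. -/
def kKernel {r : ℕ} (k : ℕ) (t : (Fin r → ℕ) → ℤ) : Set ((Fin r → ℕ) → ℤ) :=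
  {u | ∃ (e : ℕ) (ρ : Fin r → ℕ), (∀ i, ρ i < k ^ e) ∧ u = fun n => t (fun i => k ^ e * n i + ρ i)}

/-- An array is `k`-regular if its `k`-kernel generates a finitely generated `ℤ`-module. -/
def IsKRegular {r : ℕ} (k : ℕ) (t : (Fin r → ℕ) → ℤ) : Prop :=
  (Submodule.span ℤ (kKernel k t)).FG

end Pool.Agent.Lib.MP_68925f_co
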