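import Pool.Agent.Lib.MP_68925f_co.P.Aff

/-! The classification of the regular polynomial arrays over the nim field. -/

namespace Pool.Agent.Lib.MP_68925f_co

namespace Nm

theorem not_reg_big {r k p : ℕ} (hk : 2 ≤ k) (hp : p.Prime) (hpk : p ∣ k) (hodd : Odd p) (c : ℕ)
    (a : Fin r → ℕ) (i0 : Fin r) (ha : 2 ≤ a i0) :
    ¬ IsKRegular k (fun n : Fin r → ℕ => ((Nm.mk c + ∑ i, Nm.mk (a i) * ⟨n i⟩).v : ℤ)) := by
  intro h
  obtain ⟨S, z, hz, hrel⟩ := rel_of_reg hk h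
  obtain ⟨j, hj⟩ : ∃ j, j = c + a i0 := ⟨_, rfl⟩
  have hc : c < 2 ^ 2 ^ j := K_mono (s := c) (by omega) (self_mem ⟨c⟩)
  have ha' : a i0 < 2 ^ 2 ^ j := K_mono (s := a i0) (by omega) (self_mem ⟨a i0⟩)
  have hv : ∀ m u : ℕ, (Nm.mk c + ∑ i, Nm.mk (a i) * ⟨m * (if i = i0 then u else 0)⟩).v =
      c ^^^ nimMul (a i0) (m * u) := by
    intro m u
    rw [Fintype.sum_eq_single i0, if_pos rfl]
    · rfl
    · intro i hi
      rw [if_neg hi]
      exact mul_zero _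
  refine jump hk hp hpk hodd (b := 2 ^ j) Nat.one_le_two_pow
    (fun u v => ((c ^^^ nimMul (a i0) u : ℕ) : ℤ) - (c ^^^ nimMul (a i0) v : ℕ)) ?_ ?_ S z hz ?_
  · intro i u v _ huv
    refine abs_le_of_div (N := 2 ^ (2 ^ j * i)) (by positivity) ?_ |>.trans_eq (by push_cast; rfl)
    rw [Nat.xor_div_two_pow, Nat.xor_div_two_pow, (blk_div ha' i u).1, (blk_div ha' i v).1, huv]
  · intro M u v hM hv1 hu1 hu2
    have hp0 : 0 < 2 ^ (2 ^ j * M) := by positivity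
    have hc' : c < 2 ^ (2 ^ j * M) :=
      hc.trans_le (Nat.pow_le_pow_right (by norm_num) (Nat.le_mul_of_pos_right _ hM))
    have h1 : c ^^^ nimMul (a i0) v < 2 ^ (2 ^ j * M) := Nat.xor_lt_two_pow hc' (blk_lt ha' M v hv1)
    have h2 : u / 2 ^ (2 ^ j * M) = 1 :=
      Nat.div_eq_of_lt_le (by omega) (by rw [pow_succ] at hu2; omega)
    have h3 : 2 ≤ (c ^^^ nimMul (a i0) u) / 2 ^ (2 ^ j * M) := by
      rw [Nat.xor_div_two_pow, (blk_div ha' M u).1, h2, nimMul_one, Nat.div_eq_of_lt hc',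
        Nat.zero_xor]
      exact ha
    have h4 := (Nat.le_div_iff_mul_le hp0).1 h3
    have h5 : (0 : ℤ) < 2 ^ 2 ^ j := by positivity
    refine le_trans ?_ (le_abs_self _)
    have h6 : ((2 ^ (2 ^ j * M) : ℕ) : ℤ) = 2 ^ (2 ^ j * M) := by push_cast; rfl
    omega
  · intro n
    have h1 := hrel (fun i => if i = i0 then n + 1 else 0)
    have h2 := hrel (fun i => if i = i0 then n else 0)
    simp only [hv] at h1 h2
    simp only [mul_sub, Finset.sum_sub_distrib, h1, h2, sub_self]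

theorem not_reg_two {r k p : ℕ} (hk : 2 ≤ k) (hp : p.Prime) (hpk : p ∣ k) (hodd : Odd p) (c : ℕ)
    (a : Fin r → ℕ) (i0 j0 : Fin r) (hij : j0 ≠ i0) (hi : a i0 = 1) (hj : a j0 = 1) :
    ¬ IsKRegular k (fun n : Fin r → ℕ => ((Nm.mk c + ∑ i, Nm.mk (a i) * ⟨n i⟩).v : ℤ)) := by
  intro h
  obtain ⟨S, z, hz, hrel⟩ := rel_of_reg hk h
  have hc : c < 2 ^ (c + 1) := lt_trans (Nat.lt_succ_self c) Nat.lt_two_pow_self
  have hv : ∀ m u v : ℕ, (Nm.mk c + ∑ i, Nm.mk (a i) *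
      ⟨m * (if i = j0 then u else if i = i0 then v else 0)⟩).v = c ^^^ (m * u ^^^ m * v) := by
    intro m u v
    rw [Fintype.sum_eq_add j0 i0 hij, if_pos rfl, if_neg hij.symm, if_pos rfl, hi, hj]
    · show c ^^^ (nimMul 1 (m * u) ^^^ nimMul 1 (m * v)) = _
      rw [one_nimMul, one_nimMul]
    · intro i hi
      rw [if_neg hi.1, if_neg hi.2]
      exact mul_zero _
  refine jump hk hp hpk hodd (b := c + 1) (by omega)
    (fun u v => ((c ^^^ (u ^^^ v) : ℕ) : ℤ) - c) ?_ ?_ S z hz ?_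
  · intro i u v _ huv
    refine abs_le_of_div (N := 2 ^ ((c + 1) * i)) (by positivity) ?_ |>.trans_eq
      (by push_cast; rfl)
    rw [Nat.xor_div_two_pow, Nat.xor_div_two_pow, huv, Nat.xor_self, Nat.xor_zero]
  · intro M u v hM hv1 hu1 hu2
    have hp0 : 0 < 2 ^ ((c + 1) * M) := by positivity
    have hc' : c < 2 ^ ((c + 1) * M) :=
      hc.trans_le (Nat.pow_le_pow_right (by norm_num) (Nat.le_mul_of_pos_right _ hM))
    have h2 : u / 2 ^ ((c + 1) * M) = 1 :=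
      Nat.div_eq_of_lt_le (by omega) (by rw [pow_succ] at hu2; omega)
    have h3 : 1 ≤ (c ^^^ (u ^^^ v)) / 2 ^ ((c + 1) * M) := by
      rw [Nat.xor_div_two_pow, Nat.xor_div_two_pow, h2, Nat.div_eq_of_lt hc', Nat.div_eq_of_lt hv1]
      decide
    have h4 := (Nat.le_div_iff_mul_le hp0).1 h3
    refine le_trans ?_ (le_abs_self _)
    have h5 : ((2 ^ (c + 1) : ℕ) : ℤ) = 2 ^ (c + 1) := by push_cast; rfl
    have h6 : ((2 ^ ((c + 1) * M) : ℕ) : ℤ) = 2 ^ ((c + 1) * M) := by push_cast; rfl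
    omega
  · intro n
    have h1 := hrel (fun i => if i = j0 then n + 1 else if i = i0 then n else 0)
    have h2 := hrel (fun i => if i = j0 then n else if i = i0 then n else 0)
    simp only [hv, Nat.xor_self, Nat.xor_zero] at h1 h2
    simp only [mul_sub, Finset.sum_sub_distrib, h1, h2, sub_self]

theorem affine_iff {r k : ℕ} (hk : 2 ≤ k) (c : ℕ) (a : Fin r → ℕ) :
    IsKRegular k (fun n : Fin r → ℕ => ((Nm.mk c + ∑ i, Nm.mk (a i) * ⟨n i⟩).v : ℤ)) ↔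
      (∃ s, k = 2 ^ s) ∨ ∑ i, a i ≤ 1 := by
  constructor
  · intro h
    rcases Nat.eq_two_pow_or_exists_odd_prime_and_dvd k with h2 | ⟨p, hp, hpk, hodd⟩
    · exact Or.inl h2
    right
    have h1 : ∀ i, a i ≤ 1 := fun i => by
      by_contra hc
      exact not_reg_big hk hp hpk hodd c a i (by omega) h
    by_cases h0 : ∀ i, a i = 0
    · simp [h0]
    push Not at h0
    obtain ⟨i0, hi0⟩ := h0
    rw [Fintype.sum_eq_single i0]
    · exact h1 i0
    · intro j hj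
      by_contra hc
      have := h1 i0
      have := h1 j
      exact not_reg_two hk hp hpk hodd c a i0 j hj (by omega) (by omega) h
  · rintro (⟨s, rfl⟩ | h)
    · exact reg_two_pow c (fun i => ⟨a i⟩)
    rcases deg_le_one h with rfl | ⟨i0, rfl⟩
    · have e : ∀ n : Fin r → ℕ, (Nm.mk c + ∑ i, Nm.mk ((0 : Fin r → ℕ) i) * ⟨n i⟩).v = c := by
        intro n
        rw [Finset.sum_eq_zero (fun i _ => zero_mul _), add_zero]
      simp only [e]
      exact reg_const _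
    · have e : ∀ n : Fin r → ℕ,
          (Nm.mk c + ∑ i, Nm.mk ((Pi.single i0 1 : Fin r → ℕ) i) * ⟨n i⟩).v = c ^^^ n i0 := by
        intro n
        rw [Fintype.sum_eq_single i0, Pi.single_eq_same]
        · show c ^^^ nimMul 1 (n i0) = _
          rw [one_nimMul]
        · intro i hi
          rw [Pi.single_eq_of_ne hi]
          exact zero_mul _
      simp only [e]
      exact reg_shift c i0

end Nm

theorem classification {r k : ℕ} (hk : 2 ≤ k) (P : (Fin r → ℕ) →₀ ℕ) :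
    IsKRegular k (fun n => (nimEval P n : ℤ)) ↔
      (∀ d, P d ≠ 0 → ∑ i, d i ≤ 1) ∧ ((∃ s, k = 2 ^ s) ∨ ∑ i, P (Pi.single i 1) ≤ 1) := by
  constructor
  · intro h
    have h1 := Nm.deg_of_reg hk P h
    simp only [Nm.nimEval_eq, Nm.ev_affine P h1] at h
    exact ⟨h1, (Nm.affine_iff hk _ _).1 h⟩
  · rintro ⟨h1, h2⟩
    simp only [Nm.nimEval_eq, Nm.ev_affine P h1]
    exact (Nm.affine_iff hk _ _).2 h2

theorem fg_comp {α β : Type} (π : β → α) {A : Set (α → ℤ)} {B : Set (β → ℤ)}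
    (h : (Submodule.span ℤ A).FG) (hB : ∀ u ∈ B, ∃ v ∈ A, u = v ∘ π) :
    (Submodule.span ℤ B).FG := by
  refine (h.map (LinearMap.funLeft ℤ ℤ π)).of_le (Submodule.span_le.2 fun u hu => ?_)
  obtain ⟨v, hv, rfl⟩ := hB u hu
  exact ⟨v, Submodule.subset_span hv, rfl⟩

theorem isTwoRegular_iff (s : ℕ → ℤ) :
    IsTwoRegular s ↔ IsKRegular 2 (fun n : Fin 1 → ℕ => s (n 0)) := by
  constructor
  · intro h
    refine fg_comp (fun n : Fin 1 → ℕ => n 0) h ?_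
    rintro _ ⟨e, ρ, hρ, rfl⟩
    exact ⟨_, ⟨e, ρ 0, hρ 0, rfl⟩, rfl⟩
  · intro h
    refine fg_comp (fun (n : ℕ) (_ : Fin 1) => n) h ?_
    rintro _ ⟨e, ρ, hρ, rfl⟩
    exact ⟨_, ⟨e, fun _ => ρ, fun _ => hρ, rfl⟩, rfl⟩

theorem isTwoRegularArray_iff (t : ℕ × ℕ → ℤ) :
    IsTwoRegularArray t ↔ IsKRegular 2 (fun n : Fin 2 → ℕ => t (n 0, n 1)) := by
  constructor
  · intro h
    refine fg_comp (fun n : Fin 2 → ℕ => (n 0, n 1)) h ?_
    rintro _ ⟨e, ρ, hρ, rfl⟩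
    exact ⟨_, ⟨e, ρ 0, ρ 1, hρ 0, hρ 1, rfl⟩, rfl⟩
  · intro h
    refine fg_comp (fun p : ℕ × ℕ => ![p.1, p.2]) h ?_
    rintro _ ⟨e, ρ, ρ', hρ, hρ', rfl⟩
    exact ⟨_, ⟨e, ![ρ, ρ'], fun i => by fin_cases i <;> assumption, rfl⟩, rfl⟩

theorem nimEval_single {r : ℕ} (d n : Fin r → ℕ) :
    nimEval (Finsupp.single d 1) n = nimMono d n := by
  unfold nimEval
  rw [Finsupp.support_single _ one_ne_zero, Finset.fold_singleton, Finsupp.single_eq_same,
    one_nimMul, Nat.xor_zero]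

end Pool.Agent.Lib.MP_68925f_co
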