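import Pool.Agent.Lib.MP_68925f_co.P.Core
import Pool.Agent.Lib.MP_68925f_co.P.Defs

/-! Several variables: a regular polynomial array has total degree at most one. -/

namespace Pool.Agent.Lib.MP_68925f_co

theorem finite_mod {ι : Type} {M : Submodule ℤ (ι → ℤ)} (hM : M.FG) (F : ℕ) [NeZero F] :
    ((fun (v : ι → ℤ) (i : ι) => (v i : ZMod F)) '' (M : Set (ι → ℤ))).Finite := by
  classical
  obtain ⟨S, rfl⟩ := hM
  let φ : (ι → ℤ) → (ι → ZMod F) := fun v i => (v i : ZMod F)
  let N : Submodule (ZMod F) (ι → ZMod F) := Submodule.span (ZMod F) (φ '' (S : Set (ι → ℤ)))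
  have hN : ∀ v ∈ Submodule.span ℤ (S : Set (ι → ℤ)), φ v ∈ N := by
    intro v hv
    induction hv using Submodule.span_induction with
    | mem x hx => exact Submodule.subset_span ⟨x, hx, rfl⟩
    | zero =>
      have : φ 0 = 0 := by ext i; simp [φ]
      rw [this]; exact N.zero_mem
    | add x y _ _ hx hy =>
      have : φ (x + y) = φ x + φ y := by ext i; simp [φ]
      rw [this]; exact N.add_mem hx hy
    | smul c x _ hx =>
      have : φ (c • x) = (c : ZMod F) • φ x := by ext i; simp [φ]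
      rw [this]; exact N.smul_mem _ hx
  have : Module.Finite (ZMod F) N := Module.Finite.span_of_finite _ (S.finite_toSet.image φ)
  have : Finite N := Module.finite_of_finite (ZMod F)
  refine (Set.toFinite (N : Set (ι → ZMod F))).subset ?_
  rintro _ ⟨v, hv, rfl⟩
  exact hN v hv

theorem deg_le_one {r : ℕ} {d : Fin r → ℕ} (h : ∑ i, d i ≤ 1) : d = 0 ∨ ∃ i, d = Pi.single i 1 := by
  by_cases h0 : d = 0
  · exact Or.inl h0
  obtain ⟨i, hi⟩ := Function.ne_iff.1 h0
  refine Or.inr ⟨i, funext fun j => ?_⟩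
  have hi' : d i ≠ 0 := hi
  by_cases hj : j = i
  · have := Finset.single_le_sum (f := d) (fun _ _ => Nat.zero_le _) (Finset.mem_univ i)
    rw [hj, Pi.single_eq_same]
    omega
  · have := Finset.add_le_sum (f := d) (fun _ _ => Nat.zero_le _) (Finset.mem_univ j)
      (Finset.mem_univ i) hj
    rw [Pi.single_eq_of_ne hj]
    omega

namespace Nm

theorem good_of_reg {r k : ℕ} (hk : 2 ≤ k) (f : (Fin r → Nm) → Nm)
    (h : IsKRegular k (fun n : Fin r → ℕ => ((f fun i => ⟨n i⟩).v : ℤ))) (s : ℕ)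
    (ε ρ0 : Fin r → Nm) (hε : ∀ i, ε i = 0 ∨ ε i = 1) :
    Good k s (fun y => f (fun i => ε i * y + ρ0 i)) := by
  classical
  intro R
  obtain ⟨m0, hm0⟩ : ∃ m0, ∀ ρ ∈ R, ∀ i, (ε i * ρ + ρ0 i).v < 2 ^ m0 := by
    refine ⟨(R ×ˢ Finset.univ).sup (fun q : Nm × Fin r => (ε q.2 * q.1 + ρ0 q.2).v),
      fun ρ hρ i => lt_of_lt_of_le Nat.lt_two_pow_self (Nat.pow_le_pow_right (by norm_num) ?_)⟩
    exact Finset.le_sup (f := fun q : Nm × Fin r => (ε q.2 * q.1 + ρ0 q.2).v) (b := (ρ, i))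
      (Finset.mem_product.2 ⟨hρ, Finset.mem_univ i⟩)
  have : NeZero (2 ^ 2 ^ s) := ⟨by positivity⟩
  have hfin := finite_mod h (2 ^ 2 ^ s)
  have := hfin.to_subtype
  have key : ∀ a : ℕ, ∀ ρ ∈ R, ∀ n : ℕ,
      (fun i => Nm.mk (k ^ a * ((ε i).v * (2 ^ m0 * n)) + (ε i * ρ + ρ0 i).v)) =
        fun i => ε i * (⟨k ^ a * (2 ^ m0 * n)⟩ + ρ) + ρ0 i := by
    intro a ρ hρ n
    funext i
    have h1 := hm0 ρ hρ i
    rcases hε i with e | e
    · rw [e, zero_mul, zero_mul, zero_v, zero_mul, mul_zero, zero_add]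
    · rw [e] at h1 ⊢
      rw [one_mul] at h1
      rw [one_mul, one_mul, one_v, one_mul, add_assoc, mul_left_comm, ← pow_mul_xor h1]
      rfl
  obtain ⟨a, b, hab, H⟩ := Finite.exists_ne_map_eq_of_infinite
    (fun e : ℕ => fun ρ : R => (⟨_, Set.mem_image_of_mem _ (Submodule.subset_span
      ⟨m0 + e, fun i => (ε i * ρ.1 + ρ0 i).v, fun i => lt_of_lt_of_le (hm0 ρ.1 ρ.2 i)
        ((Nat.pow_le_pow_left hk _).trans (Nat.pow_le_pow_right (by omega) (Nat.le_add_right _ _))),
        rfl⟩)⟩ : ((fun (v : (Fin r → ℕ) → ℤ) i => (v i : ZMod (2 ^ 2 ^ s))) ''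
          (Submodule.span ℤ (kKernel k (fun n : Fin r → ℕ => ((f fun i => ⟨n i⟩).v : ℤ))) :
            Set ((Fin r → ℕ) → ℤ)))))
  have H' : ∀ ρ ∈ R, ∀ n : ℕ,
      lam s (f fun i => ε i * (⟨k ^ (m0 + a) * (2 ^ m0 * n)⟩ + ρ) + ρ0 i) =
        lam s (f fun i => ε i * (⟨k ^ (m0 + b) * (2 ^ m0 * n)⟩ + ρ) + ρ0 i) := by
    intro ρ hρ n
    have h1 := congrFun (congrArg Subtype.val (congrFun H ⟨ρ, hρ⟩))
      (fun i => (ε i).v * (2 ^ m0 * n))
    simp only [Int.cast_natCast] at h1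
    rw [key _ ρ hρ, key _ ρ hρ, ZMod.natCast_eq_natCast_iff'] at h1
    exact Nm.ext h1
  rcases lt_or_gt_of_ne hab with hlt | hlt
  · exact ⟨m0 + a, m0 + b, m0, by omega, H'⟩
  · exact ⟨m0 + b, m0 + a, m0, by omega, fun ρ hρ n => (H' ρ hρ n).symm⟩

theorem affine_of_lines {r : ℕ} (f : (Fin r → Nm) → Nm)
    (h : ∀ ε ρ : Fin r → Nm, (∀ i, ε i = 0 ∨ ε i = 1) → ∃ a b, ∀ y, f (ρ + y • ε) = a * y + b) :
    ∃ a : Fin r → Nm, ∀ x, f x = f 0 + ∑ i, a i * x i := by
  classical
  obtain ⟨e, he⟩ : ∃ e : Fin r → Fin r → Nm, ∀ i, e i = Pi.single i 1 := ⟨_, fun _ => rfl⟩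
  have h1 : ∀ i ρ (y : Nm), f (ρ + y • e i) = f ρ + y * (f (ρ + e i) - f ρ) := by
    intro i ρ y
    obtain ⟨a, b, H⟩ := h (e i) ρ (fun l => by
      rw [he]; by_cases hl : l = i
      · right; rw [hl, Pi.single_eq_same]
      · left; rw [Pi.single_eq_of_ne hl])
    have a0 := H 0
    have a1 := H 1
    rw [zero_smul, add_zero] at a0
    rw [one_smul] at a1
    rw [H y, a0, a1]
    ring
  have h2 : ∀ i j ρ (y : Nm),
      f (ρ + y • e i + e j) - f (ρ + y • e i) = f (ρ + e j) - f ρ := by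
    intro i j ρ y
    by_cases hij : i = j
    · subst hij
      have a1 := h1 i ρ (y + 1)
      rw [add_smul, one_smul, ← add_assoc] at a1
      rw [a1, h1 i ρ y]
      ring
    · have hE : ∀ z : Nm, f (ρ + z • e i + e j) - f (ρ + z • e i) = f (ρ + e j) - f ρ +
          z * (f (ρ + e j + e i) - f (ρ + e j) - (f (ρ + e i) - f ρ)) := by
        intro z
        rw [add_right_comm, h1 i (ρ + e j) z, h1 i ρ z]
        ring
      obtain ⟨a, b, H⟩ := h (e i + e j) ρ (fun l => by
        rw [he, he, Pi.add_apply]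
        by_cases hl : l = i
        · right; rw [hl, Pi.single_eq_same, Pi.single_eq_of_ne hij, add_zero]
        · rw [Pi.single_eq_of_ne hl, zero_add]
          by_cases hl' : l = j
          · right; rw [hl', Pi.single_eq_same]
          · left; rw [Pi.single_eq_of_ne hl'])
      have H' : ∀ z : Nm, a * z + b = f ρ + z * (f (ρ + e i) - f ρ) + z * (f (ρ + e j) - f ρ +
          z * (f (ρ + e j + e i) - f (ρ + e j) - (f (ρ + e i) - f ρ))) := by
        intro z
        rw [← H z, smul_add, ← add_assoc, h1 j, hE z, h1 i ρ z]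
      have hw : (Nm.mk 2) * ((Nm.mk 2 - 1) *
          (f (ρ + e j + e i) - f (ρ + e j) - (f (ρ + e i) - f ρ))) = 0 := by
        linear_combination (Nm.mk 2) * H' 1 - H' (Nm.mk 2) + (1 - Nm.mk 2) * H' 0
      have w0 : Nm.mk 2 ≠ 0 := fun h => absurd (congrArg Nm.v h) (by decide)
      have w1 : Nm.mk 2 - 1 ≠ 0 := fun h => absurd (congrArg Nm.v (sub_eq_zero.1 h)) (by decide)
      rw [hE y, ((mul_eq_zero.1 ((mul_eq_zero.1 hw).resolve_left w0)).resolve_left w1), mul_zero,
        add_zero]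
  refine ⟨fun j => f (0 + e j) - f 0, fun x => ?_⟩
  have h3 : ∀ S : Finset (Fin r), (∀ j, f (∑ i ∈ S, x i • e i + e j) - f (∑ i ∈ S, x i • e i) =
      f (0 + e j) - f 0) ∧
      f (∑ i ∈ S, x i • e i) = f 0 + ∑ i ∈ S, (f (0 + e i) - f 0) * x i := by
    intro S
    induction S using Finset.induction_on with
    | empty => simp
    | insert i S hi ih =>
      rw [Finset.sum_insert hi, Finset.sum_insert hi, add_comm (x i • e i)]
      refine ⟨fun j => (h2 i j _ _).trans (ih.1 j), ?_⟩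
      rw [h1, ih.1 i, ih.2]
      ring
  have h4 : ∑ i, x i • e i = x := by
    funext l
    simp [he, Finset.sum_apply, Pi.single_apply]
  rw [← (h3 Finset.univ).2, h4]

/-- evaluation in the nim ring -/
noncomputable def ev {r : ℕ} (P : (Fin r → ℕ) →₀ ℕ) (x : Fin r → Nm) : Nm :=
  ∑ d ∈ P.support, Nm.mk (P d) * ∏ i, x i ^ d i

theorem nimPow_eq (x e : ℕ) : nimPow x e = ((Nm.mk x) ^ e).v := by
  induction e with
  | zero => rfl
  | succ e ih => rw [nimPow, ih, pow_succ]; rfl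

theorem foldr_eq (l : List Nm) : (l.map Nm.v).foldr nimMul 1 = l.prod.v := by
  induction l with
  | nil => rfl
  | cons a l ih => rw [List.map_cons, List.foldr_cons, ih, List.prod_cons]; rfl

theorem nimEval_eq {r : ℕ} (P : (Fin r → ℕ) →₀ ℕ) (n : Fin r → ℕ) :
    nimEval P n = (ev P fun i => ⟨n i⟩).v := by
  classical
  have h1 : ∀ d : Fin r → ℕ, nimMono d n = (∏ i, (Nm.mk (n i)) ^ d i).v := by
    intro d
    rw [← List.prod_ofFn, ← foldr_eq, List.map_ofFn, nimMono]
    congr 2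
    funext i
    exact nimPow_eq _ _
  unfold nimEval ev
  induction P.support using Finset.induction_on with
  | empty => rfl
  | insert d S hd ih => rw [Finset.fold_insert hd, Finset.sum_insert hd, ih, h1]; rfl

theorem ev_affine {r : ℕ} (P : (Fin r → ℕ) →₀ ℕ) (h : ∀ d, P d ≠ 0 → ∑ i, d i ≤ 1)
    (x : Fin r → Nm) : ev P x = ⟨P 0⟩ + ∑ i, Nm.mk (P (Pi.single i 1)) * x i := by
  classical
  have hinj : Function.Injective (fun i : Fin r => (Pi.single i 1 : Fin r → ℕ)) := by
    intro i j hij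
    by_contra hne
    have := congrFun hij i
    simp [Pi.single_eq_of_ne hne] at this
  have h0 : (0 : Fin r → ℕ) ∉ Finset.univ.image (fun i : Fin r => (Pi.single i 1 : Fin r → ℕ)) := by
    intro h0
    obtain ⟨i, -, hi⟩ := Finset.mem_image.1 h0
    have := congrFun hi i
    simp at this
  unfold ev
  rw [Finset.sum_subset (s₂ := insert 0
    (Finset.univ.image (fun i : Fin r => (Pi.single i 1 : Fin r → ℕ)))), Finset.sum_insert h0,
    Finset.sum_image (fun i _ j _ hij => hinj hij)]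
  · congr 1
    · simp
    · refine Finset.sum_congr rfl (fun i _ => ?_)
      rw [Finset.prod_eq_single i]
      · simp
      · intro j _ hj; rw [Pi.single_eq_of_ne hj, pow_zero]
      · intro hi; exact absurd (Finset.mem_univ i) hi
  · intro d hd
    rcases deg_le_one (h d (Finsupp.mem_support_iff.1 hd)) with e | ⟨i, e⟩
    · rw [e]; exact Finset.mem_insert_self _ _
    · exact Finset.mem_insert_of_mem (Finset.mem_image.2 ⟨i, Finset.mem_univ i, e.symm⟩)
  · intro d _ hd
    rw [Finsupp.notMem_support_iff.1 hd]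
    exact zero_mul _

theorem deg_of_affine {r : ℕ} (P : (Fin r → ℕ) →₀ ℕ) (c : Nm) (a : Fin r → Nm)
    (h : ∀ x, ev P x = c + ∑ i, a i * x i) (d : Fin r → ℕ) (hd : P d ≠ 0) : ∑ i, d i ≤ 1 := by
  classical
  have h1 : (∑ d ∈ P.support, MvPolynomial.monomial (Finsupp.equivFunOnFinite.symm d)
      (Nm.mk (P d)) : MvPolynomial (Fin r) Nm) =
      MvPolynomial.C c + ∑ i, MvPolynomial.monomial (Finsupp.single i 1) (a i) := by
    refine MvPolynomial.funext (fun x => ?_)
    rw [map_add, map_sum, map_sum, MvPolynomial.eval_C]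
    have e1 : ∀ i : Fin r, (Finsupp.single i 1).prod (fun n e => x n ^ e) = x i := fun i => by
      rw [Finsupp.prod_single_index (h := fun n e => x n ^ e) (pow_zero _), pow_one]
    simp only [MvPolynomial.eval_monomial, e1]
    rw [← h x]
    refine Finset.sum_congr rfl (fun d _ => ?_)
    rw [Finsupp.prod_fintype _ _ (fun i => pow_zero _)]
    rfl
  by_contra hc
  have h2 := congrArg (MvPolynomial.coeff (Finsupp.equivFunOnFinite.symm d)) h1
  rw [MvPolynomial.coeff_add, MvPolynomial.coeff_sum, MvPolynomial.coeff_sum,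
    Finset.sum_eq_single d, MvPolynomial.coeff_monomial, if_pos rfl, MvPolynomial.coeff_C, if_neg,
    Finset.sum_eq_zero, add_zero] at h2
  · exact hd (congrArg Nm.v h2)
  · intro i _
    rw [MvPolynomial.coeff_monomial, if_neg]
    intro e
    have e' : ∀ l, d l = Finsupp.single i 1 l := fun l => by rw [e]; rfl
    refine hc ?_
    simp [e', Finsupp.single_apply]
  · intro e
    have e' : ∀ l, d l = 0 := fun l => (DFunLike.congr_fun e l).symm
    refine hc ?_
    simp [e']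
  · intro d' _ hne
    rw [MvPolynomial.coeff_monomial, if_neg]
    exact fun e => hne (Finsupp.equivFunOnFinite.symm.injective e)
  · intro hn
    exact absurd (Finsupp.mem_support_iff.2 hd) hn

theorem deg_of_reg {r k : ℕ} (hk : 2 ≤ k) (P : (Fin r → ℕ) →₀ ℕ)
    (h : IsKRegular k (fun n => (nimEval P n : ℤ))) (d : Fin r → ℕ) (hd : P d ≠ 0) :
    ∑ i, d i ≤ 1 := by
  simp only [nimEval_eq] at h
  obtain ⟨a, ha⟩ := affine_of_lines (ev P) (fun ε ρ hε => by
    obtain ⟨Q, hQ⟩ : ∃ Q : Polynomial Nm, ∀ y, Q.eval y = ev P (fun i => ε i * y + ρ i) :=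
      ⟨∑ d ∈ P.support, Polynomial.C (Nm.mk (P d)) *
        ∏ i, (Polynomial.C (ε i) * Polynomial.X + Polynomial.C (ρ i)) ^ d i, fun y => by
          simp [ev, Polynomial.eval_finsetSum, Polynomial.eval_prod]⟩
    have h1 := core (s := Q.natDegree) hk Q (self_mem ⟨Q.natDegree⟩)
      (by simp only [hQ]; exact good_of_reg hk (ev P) h _ ε ρ hε)
    refine ⟨Q.coeff 1, Q.coeff 0, fun y => ?_⟩
    have h2 : ρ + y • ε = fun i => ε i * y + ρ i := by
      funext i
      rw [Pi.add_apply, Pi.smul_apply, smul_eq_mul]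
      ring
    rw [h2, ← hQ]
    conv_lhs => rw [Polynomial.eq_X_add_C_of_natDegree_le_one h1]
    simp)
  exact deg_of_affine P _ a ha d hd

end Nm

end Pool.Agent.Lib.MP_68925f_co
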