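import Pool.Agent.Lib.MP_68925f_co.P.Ring

/-! Lowest blocks of nim powers of Fermat powers. -/

namespace Pool.Agent.Lib.MP_68925f_co

namespace Nm

open Polynomial

/-- the two coordinates of a power of a Fermat power -/
noncomputable def ab : ℕ → ℤ[X] × ℤ[X]
  | 0 => (0, 1)
  | m + 1 => ((ab m).1 + (ab m).2, X * (ab m).1)

theorem F_pow (j m : ℕ) :
    F j ^ m = aeval (g j) (ab m).1 * F j + aeval (g j) (ab m).2 := by
  induction m with
  | zero => simp [ab]
  | succ m ih =>
    rw [pow_succ, ih, add_mul, mul_assoc, F_sq]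
    simp only [ab, map_add, map_mul, aeval_X]
    ring

theorem ab_coeff (m : ℕ) : (ab (m + 1)).1.coeff 0 = 1 ∧ (ab (m + 1)).2.coeff 0 = 0 := by
  induction m with
  | zero => simp [ab]
  | succ m ih =>
    constructor
    · show ((ab (m + 1)).1 + (ab (m + 1)).2).coeff 0 = 1
      rw [coeff_add, ih.1, ih.2, add_zero]
    · show (X * (ab (m + 1)).1).coeff 0 = 0
      exact coeff_X_mul_zero _

theorem aeval_mem {j : ℕ} {x : Nm} (hx : x ∈ K j) (h : ℤ[X]) : aeval x h ∈ K j := by
  induction h using Polynomial.induction_on with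
  | C a => rw [aeval_C]; exact intCast_mem (K j) a
  | add p q hp hq => rw [map_add]; exact add_mem hp hq
  | monomial n a ih => rw [pow_succ, ← mul_assoc, map_mul, aeval_X]; exact mul_mem ih hx

theorem lam_F_pow (j m : ℕ) : lam j (F j ^ m) = aeval (g j) (ab m).2 := by
  rw [F_pow, map_add, lam_mul (aeval_mem (g_mem j) _), lam_F, mul_zero, zero_add,
    lam_of_mem (aeval_mem (g_mem j) _)]

theorem descend (h : ℤ[X]) :
    ∃ h' : ℤ[X], ∀ r, lam r (aeval (g (r + 1)) (X * h)) = aeval (g r) (X * (X * h')) := by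
  induction h using Polynomial.induction_on' with
  | add p q hp hq =>
    obtain ⟨p', hp⟩ := hp
    obtain ⟨q', hq⟩ := hq
    refine ⟨p' + q', fun r => ?_⟩
    rw [mul_add, map_add, map_add, hp, hq, mul_add, mul_add, map_add]
  | monomial n a =>
    refine ⟨monomial n a * (ab n).1, fun r => ?_⟩
    have e : aeval (g (r + 1)) (X * monomial n a) =
        aeval (g r) (X * monomial n a) * F r ^ (n + 1) := by
      simp only [map_mul, aeval_X, aeval_monomial, g_succ, mul_pow]
      ring
    rw [e, lam_mul (aeval_mem (g_mem r) _), lam_F_pow]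
    simp only [ab, map_mul, aeval_X]
    ring

theorem descend_iter (h : ℤ[X]) (o : ℕ) :
    ∃ h' : ℤ[X], ∀ r, lam r (aeval (g (r + (o + 1))) (X * h)) = aeval (g r) (X * (X * h')) := by
  induction o with
  | zero => exact descend h
  | succ o ih =>
    obtain ⟨h1, H1⟩ := ih
    obtain ⟨h2, H2⟩ := descend (X * h1)
    refine ⟨h2, fun r => ?_⟩
    rw [← lam_lam (Nat.le_succ r), (by omega : r + (o + 1 + 1) = r + 1 + (o + 1)), H1, H2]

/-- the lowest blocks of the powers of two Fermat powers at a fixed distance differ -/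
theorem delta_ne (m o j0 : ℕ) :
    ∃ j, j0 ≤ j ∧ lam j (F j ^ (m + 2)) ≠ lam j (F (j + (o + 1)) ^ (m + 2)) := by
  obtain ⟨h', H⟩ := descend_iter (ab (m + 1)).1 o
  obtain ⟨W, hW⟩ : ∃ W : Nm[X],
      W = (X * (ab (m + 1)).1 - X * (X * h')).map (algebraMap ℤ Nm) := ⟨_, rfl⟩
  have hW0 : W ≠ 0 := by
    intro h0
    have h1 : W.coeff 1 = 1 := by
      rw [hW, coeff_map, coeff_sub, coeff_X_mul, coeff_X_mul, coeff_X_mul_zero, (ab_coeff m).1]
      simp
    rw [h0] at h1
    simp at h1
  by_contra hc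
  push Not at hc
  refine hW0 (eq_zero_of_infinite_isRoot W ?_)
  refine Set.infinite_of_injective_forall_mem (f := fun i : ℕ => g (j0 + i))
    (fun a b hab => Nat.add_left_cancel (g_inj hab)) (fun i => ?_)
  have h1 := hc (j0 + i) (Nat.le_add_right _ _)
  rw [← lam_lam (Nat.le_add_right (j0 + i) (o + 1)) (F (j0 + i + (o + 1)) ^ (m + 2)), lam_F_pow,
    lam_F_pow] at h1
  have h2 : aeval (g (j0 + i)) (X * (ab (m + 1)).1) = aeval (g (j0 + i)) (X * (X * h')) :=
    h1.trans (H _)
  show W.IsRoot _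
  rw [IsRoot.def, hW, eval_map_algebraMap, map_sub, h2, sub_self]

/-- a polynomial over a finite level whose values have lowest block zero is constant -/
theorem const_of_lam {s j : ℕ} (hs : s ≤ j) (A : Nm[X]) (hd : A.natDegree < 2 ^ 2 ^ s)
    (hA : ∀ x ∈ K j, A.eval x ∈ K j ∧ lam s (A.eval x) = 0) : A.natDegree = 0 := by
  classical
  by_contra h0
  obtain ⟨c, hc⟩ : ∃ c, 2 ^ 2 ^ j = 2 ^ 2 ^ s * c :=
    pow_dvd_pow 2 (Nat.pow_le_pow_right (by norm_num) hs)
  have hp : 0 < 2 ^ 2 ^ s := by positivity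
  have hcp : 0 < c := by
    have : 0 < 2 ^ 2 ^ j := by positivity
    rw [hc] at this
    exact Nat.pos_of_mul_pos_left this
  have h1 : (Finset.range (2 ^ 2 ^ j)).card ≤ A.natDegree * (Finset.range c).card := by
    refine Finset.card_le_mul_card_image_of_maps_to
      (f := fun x : ℕ => (A.eval ⟨x⟩).v / 2 ^ 2 ^ s) (fun x hx => ?_) _ (fun y _ => ?_)
    · refine Finset.mem_range.2 (Nat.div_lt_of_lt_mul ?_)
      rw [← hc]
      exact (hA ⟨x⟩ (Finset.mem_range.1 hx)).1
    · have hne : A - C (Nm.mk (2 ^ 2 ^ s * y)) ≠ 0 := by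
        intro h
        rw [sub_eq_zero] at h
        rw [h, natDegree_C] at h0
        exact h0 rfl
      calc _ ≤ (A - C (Nm.mk (2 ^ 2 ^ s * y))).roots.toFinset.card := by
            refine Finset.card_le_card_of_injOn Nm.mk (fun x hx => ?_) mk_inj.injOn
            obtain ⟨hx1, hx2⟩ := Finset.mem_filter.1 (Finset.mem_coe.1 hx)
            have h2 : (A.eval ⟨x⟩).v % 2 ^ 2 ^ s = 0 :=
              congrArg Nm.v (hA ⟨x⟩ (Finset.mem_range.1 hx1)).2
            rw [Finset.mem_coe, Multiset.mem_toFinset, mem_roots hne, IsRoot.def, eval_sub, eval_C,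
              sub_eq_zero]
            refine Nm.ext ?_
            show (A.eval ⟨x⟩).v = 2 ^ 2 ^ s * y
            rw [← hx2, ← Nat.div_add_mod (A.eval ⟨x⟩).v (2 ^ 2 ^ s), h2]
            simp
        _ ≤ Multiset.card (A - C (Nm.mk (2 ^ 2 ^ s * y))).roots := Multiset.toFinset_card_le _
        _ ≤ (A - C (Nm.mk (2 ^ 2 ^ s * y))).natDegree := card_roots' _
        _ = A.natDegree := natDegree_sub_C
  rw [Finset.card_range, Finset.card_range, hc] at h1
  exact absurd (Nat.le_of_mul_le_mul_right h1 hcp) (not_le.2 hd)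

end Nm

end Pool.Agent.Lib.MP_68925f_co
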