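import Pool.Agent.Lib.MP_68925f_co.Regular

/-! The nim ring as a type of its own, the subfields below Fermat powers, block structure. -/

namespace Pool.Agent.Lib.MP_68925f_co

/-- natural numbers with nim sum and nim product -/
@[ext] structure Nm where
  v : ℕ

namespace Nm

instance : Add Nm := ⟨fun a b => ⟨a.v ^^^ b.v⟩⟩
noncomputable instance : Mul Nm := ⟨fun a b => ⟨nimMul a.v b.v⟩⟩
instance : Neg Nm := ⟨fun a => a⟩
instance : Zero Nm := ⟨⟨0⟩⟩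
instance : One Nm := ⟨⟨1⟩⟩

noncomputable instance : CommRing Nm :=
  CommRing.ofMinimalAxioms
    (fun a b c => Nm.ext (Nat.xor_assoc a.v b.v c.v))
    (fun a => Nm.ext (Nat.zero_xor a.v))
    (fun a => Nm.ext (Nat.xor_self a.v))
    (fun a b c => Nm.ext (nimMul_assoc a.v b.v c.v))
    (fun a b => Nm.ext (nimMul_comm a.v b.v))
    (fun a => Nm.ext (one_nimMul a.v))
    (fun a b c => Nm.ext (nimMul_xor a.v b.v c.v))

theorem add_v (a b : Nm) : (a + b).v = a.v ^^^ b.v := rfl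
theorem mul_v (a b : Nm) : (a * b).v = nimMul a.v b.v := rfl
theorem zero_v : (0 : Nm).v = 0 := rfl
theorem one_v : (1 : Nm).v = 1 := rfl
theorem add_self (a : Nm) : a + a = 0 := Nm.ext (Nat.xor_self a.v)
theorem neg_eq (a : Nm) : -a = a := rfl
theorem sub_eq (a b : Nm) : a - b = a + b := by rw [sub_eq_add_neg, neg_eq]
theorem eq_of_add {a b : Nm} (h : a + b = 0) : a = b := by rwa [← sub_eq, sub_eq_zero] at h
theorem mk_inj : Function.Injective Nm.mk := fun _ _ h => congrArg Nm.v h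

instance : Nontrivial Nm := ⟨⟨0, 1, fun h => absurd (congrArg Nm.v h) (by decide)⟩⟩
instance : NoZeroDivisors Nm :=
  ⟨fun h => (nimMul_eq_zero (congrArg Nm.v h)).imp (fun e => Nm.ext e) (fun e => Nm.ext e)⟩
instance : IsDomain Nm := NoZeroDivisors.to_isDomain Nm
instance : Infinite Nm := Infinite.of_injective Nm.mk mk_inj

/-- the Fermat power -/
def F (j : ℕ) : Nm := ⟨2 ^ 2 ^ j⟩
/-- half of the Fermat power -/
def g (j : ℕ) : Nm := ⟨2 ^ (2 ^ j - 1)⟩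

/-- the numbers below a Fermat power -/
def K (j : ℕ) : Subring Nm where
  carrier := {x | x.v < 2 ^ 2 ^ j}
  mul_mem' := fun {a b} ha hb => (tower j).1 a.v ha b.v hb
  one_mem' := Nat.one_lt_two_pow (Nat.pos_iff_ne_zero.1 (Nat.pow_pos (by norm_num)))
  add_mem' := fun ha hb => Nat.xor_lt_two_pow ha hb
  zero_mem' := Nat.pow_pos (by norm_num)
  neg_mem' := fun h => h

theorem mem_K {j : ℕ} {x : Nm} : x ∈ K j ↔ x.v < 2 ^ 2 ^ j := Iff.rfl

theorem K_mono {s j : ℕ} (h : s ≤ j) {x : Nm} (hx : x ∈ K s) : x ∈ K j :=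
  lt_of_lt_of_le hx (Nat.pow_le_pow_right (by norm_num) (Nat.pow_le_pow_right (by norm_num) h))

theorem self_mem (x : Nm) : x ∈ K x.v :=
  lt_trans Nat.lt_two_pow_self (Nat.pow_lt_pow_right (by norm_num) Nat.lt_two_pow_self)

theorem F_mul {j : ℕ} {x : Nm} (hx : x ∈ K j) : F j * x = ⟨2 ^ 2 ^ j * x.v⟩ :=
  Nm.ext (ruleA (tower j).1 x.v hx)

theorem g_mem (j : ℕ) : g j ∈ K j :=
  Nat.pow_lt_pow_right (by norm_num) (by have : 1 ≤ 2 ^ j := Nat.one_le_two_pow; omega)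

theorem F_sq (j : ℕ) : F j * F j = F j + g j := by
  have h := pow_mul_xor (g_mem j) 1
  rw [mul_one] at h
  exact Nm.ext ((ruleB (tower j).1 (tower j).2 Nat.one_le_two_pow).trans h.symm)

theorem g_succ (j : ℕ) : g (j + 1) = F j * g j := by
  rw [F_mul (g_mem j)]
  refine Nm.ext ?_
  have : 1 ≤ 2 ^ j := Nat.one_le_two_pow
  show 2 ^ (2 ^ (j + 1) - 1) = 2 ^ 2 ^ j * 2 ^ (2 ^ j - 1)
  rw [← pow_add]
  congr 1
  rw [pow_succ]
  omega

theorem g_inj : Function.Injective g := by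
  intro a b h
  have h1 : 2 ^ a - 1 = 2 ^ b - 1 := Nat.pow_right_injective le_rfl (congrArg Nm.v h)
  have ha : 1 ≤ 2 ^ a := Nat.one_le_two_pow
  have hb : 1 ≤ 2 ^ b := Nat.one_le_two_pow
  exact Nat.pow_right_injective le_rfl (show 2 ^ a = 2 ^ b by omega)

end Nm

theorem pow_mul_xor_dist (n a b : ℕ) : 2 ^ n * (a ^^^ b) = 2 ^ n * a ^^^ 2 ^ n * b := by
  rw [mul_comm _ (a ^^^ b), mul_comm _ a, mul_comm _ b, ← Nat.shiftLeft_eq, ← Nat.shiftLeft_eq,
    ← Nat.shiftLeft_eq, Nat.shiftLeft_xor_distrib]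

theorem split_xor (n u : ℕ) : u = 2 ^ n * (u / 2 ^ n) ^^^ u % 2 ^ n := by
  rw [pow_mul_xor (Nat.mod_lt _ (by positivity)), Nat.div_add_mod]

theorem blk_small {j a x : ℕ} (ha : a < 2 ^ 2 ^ j) (hx : x < 2 ^ 2 ^ j) (t : ℕ) :
    nimMul a (2 ^ (2 ^ j * t) * x) = 2 ^ (2 ^ j * t) * nimMul a x := by
  induction t using Nat.strong_induction_on with
  | _ t ih =>
    rcases Nat.eq_zero_or_pos t with rfl | ht
    · simp
    obtain ⟨q, hq1, hq2⟩ : ∃ q, 2 ^ q ≤ t ∧ t < 2 ^ (q + 1) :=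
      ⟨Nat.log 2 t, Nat.pow_log_le_self 2 ht.ne', Nat.lt_pow_succ_log_self (by norm_num) t⟩
    obtain ⟨u, rfl⟩ : ∃ u, t = 2 ^ q + u := ⟨t - 2 ^ q, by omega⟩
    have hu : u + 1 ≤ 2 ^ q := by rw [pow_succ] at hq2; omega
    have hb : ∀ z < 2 ^ 2 ^ j, 2 ^ (2 ^ j * u) * z < 2 ^ 2 ^ (j + q) := by
      intro z hz
      calc 2 ^ (2 ^ j * u) * z < 2 ^ (2 ^ j * u) * 2 ^ 2 ^ j :=
            Nat.mul_lt_mul_of_pos_left hz (by positivity)
        _ = 2 ^ (2 ^ j * (u + 1)) := by rw [← pow_add, mul_add, mul_one]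
        _ ≤ 2 ^ 2 ^ (j + q) := by
            rw [pow_add 2 j q]
            exact Nat.pow_le_pow_right (by norm_num) (Nat.mul_le_mul_left _ hu)
    have h1 : 1 ≤ 2 ^ q := Nat.one_le_two_pow
    rw [mul_add, ← pow_add 2 j q, pow_add 2 (2 ^ (j + q)), mul_assoc, mul_assoc,
      ← ruleA (tower _).1 _ (hb x hx), ← ruleA (tower _).1 _ (hb _ ((tower j).1 a ha x hx)),
      ← ih u (by omega), ← nimMul_assoc, nimMul_comm a, nimMul_assoc]

theorem blk {j a : ℕ} (ha : a < 2 ^ 2 ^ j) (u t : ℕ) :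
    nimMul a (2 ^ (2 ^ j * t) * u) = 2 ^ (2 ^ j * t) * nimMul a u := by
  induction u using Nat.strong_induction_on generalizing t with
  | _ u ih =>
    rcases Nat.eq_zero_or_pos u with rfl | hu
    · simp [nimMul_zero]
    have h1 : 1 < 2 ^ 2 ^ j := Nat.one_lt_two_pow (by positivity)
    have hlt : u / 2 ^ 2 ^ j < u := Nat.div_lt_self hu h1
    have hm : u % 2 ^ 2 ^ j < 2 ^ 2 ^ j := Nat.mod_lt _ (by positivity)
    have e1 := ih _ hlt (t + 1)
    have e2 := ih _ hlt 1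
    rw [mul_one] at e2
    rw [mul_add, mul_one, pow_add, mul_assoc, mul_assoc] at e1
    rw [split_xor (2 ^ j) u, pow_mul_xor_dist, nimMul_xor, nimMul_xor, e1, e2, blk_small ha hm,
      pow_mul_xor_dist]

theorem blk_lt {j a : ℕ} (ha : a < 2 ^ 2 ^ j) (t v : ℕ) (hv : v < 2 ^ (2 ^ j * t)) :
    nimMul a v < 2 ^ (2 ^ j * t) := by
  induction t generalizing v with
  | zero =>
    obtain rfl : v = 0 := by simpa using hv
    simp [nimMul_zero]
  | succ t ih =>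
    have hm : v % 2 ^ (2 ^ j * t) < 2 ^ (2 ^ j * t) := Nat.mod_lt _ (by positivity)
    have e : 2 ^ (2 ^ j * (t + 1)) = 2 ^ (2 ^ j * t) * 2 ^ 2 ^ j := by
      rw [mul_add, mul_one, pow_add]
    have hd : v / 2 ^ (2 ^ j * t) < 2 ^ 2 ^ j := Nat.div_lt_of_lt_mul (e ▸ hv)
    rw [split_xor (2 ^ j * t) v, nimMul_xor, blk ha]
    refine Nat.xor_lt_two_pow ?_ ((ih _ hm).trans_le ?_)
    · rw [e]
      exact Nat.mul_lt_mul_of_pos_left ((tower j).1 a ha _ hd) (by positivity)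
    · exact Nat.pow_le_pow_right (by norm_num) (Nat.mul_le_mul_left _ (Nat.le_succ t))

theorem blk_div {j a : ℕ} (ha : a < 2 ^ 2 ^ j) (t u : ℕ) :
    nimMul a u / 2 ^ (2 ^ j * t) = nimMul a (u / 2 ^ (2 ^ j * t)) ∧
      nimMul a u % 2 ^ (2 ^ j * t) = nimMul a (u % 2 ^ (2 ^ j * t)) := by
  have hp : 0 < 2 ^ (2 ^ j * t) := by positivity
  have hm := blk_lt ha t _ (Nat.mod_lt u hp)
  have e : nimMul a u = 2 ^ (2 ^ j * t) * nimMul a (u / 2 ^ (2 ^ j * t)) +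
      nimMul a (u % 2 ^ (2 ^ j * t)) := by
    rw [← pow_mul_xor hm, ← blk ha, ← nimMul_xor, ← split_xor]
  constructor
  · rw [e, Nat.mul_add_div hp, Nat.div_eq_of_lt hm, add_zero]
  · rw [e, Nat.mul_add_mod, Nat.mod_eq_of_lt hm]

namespace Nm

/-- the lowest block -/
def lam (j : ℕ) : Nm →+ Nm where
  toFun x := ⟨x.v % 2 ^ 2 ^ j⟩
  map_zero' := Nm.ext (Nat.zero_mod _)
  map_add' _ _ := Nm.ext Nat.xor_mod_two_pow

theorem lam_v (j : ℕ) (x : Nm) : (lam j x).v = x.v % 2 ^ 2 ^ j := rfl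

theorem lam_mem (j : ℕ) (x : Nm) : lam j x ∈ K j := Nat.mod_lt _ (by positivity)

theorem lam_of_mem {j : ℕ} {x : Nm} (hx : x ∈ K j) : lam j x = x := Nm.ext (Nat.mod_eq_of_lt hx)

theorem lam_mul {j : ℕ} {a : Nm} (ha : a ∈ K j) (x : Nm) : lam j (a * x) = a * lam j x := by
  have h := (blk_div ha 1 x.v).2
  rw [mul_one] at h
  exact Nm.ext h

theorem lam_F (j : ℕ) : lam j (F j) = 0 := Nm.ext (Nat.mod_self _)

theorem lam_lam {s j : ℕ} (h : s ≤ j) (x : Nm) : lam s (lam j x) = lam s x :=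
  Nm.ext (Nat.mod_mod_of_dvd _ (pow_dvd_pow 2 (Nat.pow_le_pow_right (by norm_num) h)))

end Nm

end Pool.Agent.Lib.MP_68925f_co
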